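import Pool.Agent.Results.MP_1a5b88_nt.NotDetermined

/-!
# The 2-adic valuations of the coefficients of the fifth and ninth powers of the Thue-Morse product (MP_1a5b88, Q2)

`F(x) = ∏ (1 - x^(2^i))`, `F^m = ∑ t_m(n) x^n`.  With `v = ν₂(n + 1)`: `ν₂(t_5(4n + j)) = 4 ⌈v/2⌉ - (v mod 2)` for
`0 ≤ j < 4` and `ν₂(t_9(8n + j)) = 5 ⌈v/2⌉ - 2 (v mod 2)` for `0 ≤ j < 8`, for all `n`.

Proof.  Let `q = m - 1` and `S(z) = (t(z), t(z-1), ..., t(z-q+1))`.  By `F(x)^m = (1-x)^m F(x^2)^m` there is an integer matrix `M`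
with `S(2z+1) = M S(z)`, so that `S(2^w (z+1) - 1) = M^w S(z)`.  By the Cayley-Hamilton identity of `M^2` (checked by the kernel) and
the first powers, the entries of `M^(k+v)` are `2^(A_v)` times odd numbers, for all `v ≥ 0`.  If `n + 1 = 2^v (2u+1)`, then the
numbers `t(2^k n + j)` are the entries of `M^(k+v) S(2u)`, so `2^(A_v) ∑ (odd) t(2u - i)`, `0 ≤ i < q`, and the sum is odd as
`t(z) = ⌊z/q⌋ + 1 (mod 2)`.
-/

set_option autoImplicit false

namespace Pool.Agent.Results.MP_1a5b88_nt.ExplicitCases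

open Finset
open Pool.Agent.Results.MP_1a5b88_nt.NotDetermined (t c t_eq c_succ)

/-- the coefficients, extended by `0` to the negative integers -/
noncomputable def T (m : ℕ) (z : ℤ) : ℤ := if z < 0 then 0 else t m z.toNat

theorem T_neg {m : ℕ} {z : ℤ} (h : z < 0) : T m z = 0 := by
  unfold T
  rw [if_pos h]

theorem T_nat (m n : ℕ) : T m n = t m n := by
  unfold T
  rw [if_neg (by omega), Int.toNat_natCast]

theorem T_eq {m N : ℕ} {z : ℤ} (h : z < 2 ^ N) : T m z = c m N z := by
  by_cases hz : z < 0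
  · rw [T_neg hz]
    unfold c
    rw [if_pos hz]
  · obtain ⟨n, rfl⟩ := Int.eq_ofNat_of_zero_le (not_lt.mp hz)
    rw [T_nat]
    exact t_eq (by exact_mod_cast h)

theorem T_rec (m : ℕ) (z : ℤ) (b : ℕ) (hb : b < 2) : T m (2 * z + b) =
    ∑ j ∈ range (m + 1), (-1) ^ j * (m.choose j : ℤ) *
      (if (b + j) % 2 = 0 then T m (z - (((j : ℤ) - b) / 2)) else 0) := by
  obtain ⟨N, hN⟩ : ∃ N : ℕ, z < 2 ^ N := by
    refine ⟨z.toNat, ?_⟩
    have h1 : z ≤ (z.toNat : ℤ) := Int.self_le_toNat z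
    have h2 : (z.toNat : ℤ) < 2 ^ z.toNat := by exact_mod_cast Nat.lt_two_pow_self
    linarith
  rw [T_eq (N := N + 1) (by rw [pow_succ]; omega), c_succ]
  refine sum_congr rfl fun j _ => ?_
  congr 1
  by_cases h : (b + j) % 2 = 0
  · rw [if_pos (by omega), if_pos h, T_eq (N := N) (by omega)]
    congr 1
    omega
  · rw [if_neg (by omega), if_neg h]

theorem T_zero (m : ℕ) : T m 0 = 1 := by
  rw [T_eq (N := 0) (by norm_num)]
  unfold c Pool.Agent.Results.MP_1a5b88_nt.NotDetermined.G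
  simp

theorem emul {A : ℕ} {x y : ℤ} (h : x = 2 ^ A * (2 * y + 1)) : emultiplicity (2 : ℤ) x = (A : ℕ∞) := by
  rw [emultiplicity_eq_coe, h]
  refine ⟨dvd_mul_right _ _, fun h2 => ?_⟩
  rw [pow_succ] at h2
  have h3 := Int.dvd_of_mul_dvd_mul_left (by positivity) h2
  omega

/-! ### the power 5 -/

theorem T5_even (z : ℤ) : T 5 (2 * z) = 1 * T 5 (z) + 10 * T 5 (z - 1) + 5 * T 5 (z - 2) := by
  have h := T_rec 5 z 0 (by norm_num)
  norm_num [Finset.sum_range_succ, Nat.choose] at h
  linarith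

theorem T5_odd (z : ℤ) : T 5 (2 * z + 1) = -5 * T 5 (z) - 10 * T 5 (z - 1) - 1 * T 5 (z - 2) := by
  have h := T_rec 5 z 1 (by norm_num)
  norm_num [Finset.sum_range_succ, Nat.choose] at h
  linarith

theorem T5_par (n : ℕ) : ∀ z : ℤ, -4 ≤ z → z < n → T 5 z % 2 = (z / 4 + 1) % 2 := by
  induction n with
  | zero =>
    intro z h1 h2
    rw [T_neg (by simpa using h2)]
    omega
  | succ n ih =>
    intro z h1 h2
    push_cast at h2
    rcases lt_trichotomy z 0 with h | h | h
    · rw [T_neg h]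
      omega
    · subst h
      rw [T_zero]
      norm_num
    · obtain ⟨y, hy | hy⟩ := Int.even_or_odd' z
      · have a := ih y (by omega) (by omega)
        have b := ih (y - 2) (by omega) (by omega)
        rw [hy, T5_even]
        omega
      · have a := ih y (by omega) (by omega)
        have b := ih (y - 2) (by omega) (by omega)
        rw [hy, T5_odd]
        omega

theorem T5_sum (u : ℕ) : ∃ y : ℤ, ∑ i : Fin 4, T 5 (2 * (u : ℤ) - (i : ℕ)) = 2 * y + 1 := by
  have h0 := T5_par (2 * u + 1) (2 * (u : ℤ) - 0) (by omega) (by push_cast; omega)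
  have h1 := T5_par (2 * u + 1) (2 * (u : ℤ) - 1) (by omega) (by push_cast; omega)
  have h2 := T5_par (2 * u + 1) (2 * (u : ℤ) - 2) (by omega) (by push_cast; omega)
  have h3 := T5_par (2 * u + 1) (2 * (u : ℤ) - 3) (by omega) (by push_cast; omega)
  refine ⟨(∑ i : Fin 4, T 5 (2 * (u : ℤ) - (i : ℕ))) / 2, ?_⟩
  simp only [Fin.sum_univ_succ, Fin.sum_univ_zero, Fin.val_zero, Fin.val_succ]
  norm_num at h0 ⊢
  omega

/-- the matrix `M` with `S(2z+1) = M S(z)` -/
def M5 : Matrix (Fin 4) (Fin 4) ℤ :=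
  Matrix.of ![![-5, -10, -1, 0],
    ![1, 10, 5, 0],
    ![0, -5, -10, -1],
    ![0, 1, 10, 5]]

theorem S5_step (z : ℤ) (i : Fin 4) : T 5 (2 * z + 1 - (i : ℕ)) = ∑ j : Fin 4, M5 i j * T 5 (z - (j : ℕ)) := by
  have o0 := T5_odd z
  have e0 := T5_even z
  have o1 := T5_odd (z - 1)
  have e1 := T5_even (z - 1)
  simp only [Fin.sum_univ_succ, Fin.sum_univ_zero, Fin.val_zero, Fin.val_succ]
  fin_cases i <;> simp [M5] <;> ring_nf at * <;> linarith


/-! ### the power 9 -/

theorem T9_even (z : ℤ) : T 9 (2 * z) = 1 * T 9 (z) + 36 * T 9 (z - 1) + 126 * T 9 (z - 2) + 84 * T 9 (z - 3) + 9 * T 9 (z - 4) := by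
  have h := T_rec 9 z 0 (by norm_num)
  norm_num [Finset.sum_range_succ, Nat.choose] at h
  linarith

theorem T9_odd (z : ℤ) : T 9 (2 * z + 1) = -9 * T 9 (z) - 84 * T 9 (z - 1) - 126 * T 9 (z - 2) - 36 * T 9 (z - 3) - 1 * T 9 (z - 4) := by
  have h := T_rec 9 z 1 (by norm_num)
  norm_num [Finset.sum_range_succ, Nat.choose] at h
  linarith

theorem T9_par (n : ℕ) : ∀ z : ℤ, -8 ≤ z → z < n → T 9 z % 2 = (z / 8 + 1) % 2 := by
  induction n with
  | zero =>
    intro z h1 h2
    rw [T_neg (by simpa using h2)]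
    omega
  | succ n ih =>
    intro z h1 h2
    push_cast at h2
    rcases lt_trichotomy z 0 with h | h | h
    · rw [T_neg h]
      omega
    · subst h
      rw [T_zero]
      norm_num
    · obtain ⟨y, hy | hy⟩ := Int.even_or_odd' z
      · have a := ih y (by omega) (by omega)
        have b := ih (y - 4) (by omega) (by omega)
        rw [hy, T9_even]
        omega
      · have a := ih y (by omega) (by omega)
        have b := ih (y - 4) (by omega) (by omega)
        rw [hy, T9_odd]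
        omega

theorem T9_sum (u : ℕ) : ∃ y : ℤ, ∑ i : Fin 8, T 9 (2 * (u : ℤ) - (i : ℕ)) = 2 * y + 1 := by
  have h0 := T9_par (2 * u + 1) (2 * (u : ℤ) - 0) (by omega) (by push_cast; omega)
  have h1 := T9_par (2 * u + 1) (2 * (u : ℤ) - 1) (by omega) (by push_cast; omega)
  have h2 := T9_par (2 * u + 1) (2 * (u : ℤ) - 2) (by omega) (by push_cast; omega)
  have h3 := T9_par (2 * u + 1) (2 * (u : ℤ) - 3) (by omega) (by push_cast; omega)
  have h4 := T9_par (2 * u + 1) (2 * (u : ℤ) - 4) (by omega) (by push_cast; omega)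
  have h5 := T9_par (2 * u + 1) (2 * (u : ℤ) - 5) (by omega) (by push_cast; omega)
  have h6 := T9_par (2 * u + 1) (2 * (u : ℤ) - 6) (by omega) (by push_cast; omega)
  have h7 := T9_par (2 * u + 1) (2 * (u : ℤ) - 7) (by omega) (by push_cast; omega)
  refine ⟨(∑ i : Fin 8, T 9 (2 * (u : ℤ) - (i : ℕ))) / 2, ?_⟩
  simp only [Fin.sum_univ_succ, Fin.sum_univ_zero, Fin.val_zero, Fin.val_succ]
  norm_num at h0 ⊢
  omega

/-- the matrix `M` with `S(2z+1) = M S(z)` -/
def M9 : Matrix (Fin 8) (Fin 8) ℤ :=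
  Matrix.of ![![-9, -84, -126, -36, -1, 0, 0, 0],
    ![1, 36, 126, 84, 9, 0, 0, 0],
    ![0, -9, -84, -126, -36, -1, 0, 0],
    ![0, 1, 36, 126, 84, 9, 0, 0],
    ![0, 0, -9, -84, -126, -36, -1, 0],
    ![0, 0, 1, 36, 126, 84, 9, 0],
    ![0, 0, 0, -9, -84, -126, -36, -1],
    ![0, 0, 0, 1, 36, 126, 84, 9]]

theorem S9_step (z : ℤ) (i : Fin 8) : T 9 (2 * z + 1 - (i : ℕ)) = ∑ j : Fin 8, M9 i j * T 9 (z - (j : ℕ)) := by
  have o0 := T9_odd z
  have e0 := T9_even z
  have o1 := T9_odd (z - 1)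
  have e1 := T9_even (z - 1)
  have o2 := T9_odd (z - 2)
  have e2 := T9_even (z - 2)
  have o3 := T9_odd (z - 3)
  have e3 := T9_even (z - 3)
  simp only [Fin.sum_univ_succ, Fin.sum_univ_zero, Fin.val_zero, Fin.val_succ]
  fin_cases i <;> simp [M9] <;> ring_nf at * <;> linarith

/-! ### powers of the matrix, the power 5 -/

theorem S5_pow (z : ℤ) (w : ℕ) : ∀ i : Fin 4, T 5 (2 ^ w * (z + 1) - 1 - (i : ℕ)) =
    ∑ j : Fin 4, (M5 ^ w) i j * T 5 (z - (j : ℕ)) := by
  induction w with
  | zero =>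
    intro i
    simp [Matrix.one_apply]
  | succ w ih =>
    intro i
    have e : (2 : ℤ) ^ (w + 1) * (z + 1) - 1 = 2 * (2 ^ w * (z + 1) - 1) + 1 := by ring
    rw [e, S5_step, pow_succ' M5 w]
    simp_rw [Matrix.mul_apply, Finset.sum_mul]
    rw [Finset.sum_comm]
    refine Finset.sum_congr rfl fun l _ => ?_
    rw [ih l, Finset.mul_sum]
    exact Finset.sum_congr rfl fun j _ => by ring

/-- the power `2` of `M` -/
def P5_2 : Matrix (Fin 4) (Fin 4) ℤ :=
  Matrix.of ![![15, -45, -35, 1],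
    ![5, 65, -1, -5],
    ![-5, -1, 65, 5],
    ![1, -35, -45, 15]]

/-- the power `3` of `M` -/
def P5_3 : Matrix (Fin 4) (Fin 4) ℤ :=
  Matrix.of ![![-120, -424, 120, 40],
    ![40, 600, 280, -24],
    ![24, -280, -600, -40],
    ![-40, -120, 424, 120]]

/-- the power `4` of `M` -/
def P5_4 : Matrix (Fin 4) (Fin 4) ℤ :=
  Matrix.of ![![176, -3600, -2800, 80],
    ![400, 4176, -80, -400],
    ![-400, -80, 4176, 400],
    ![80, -2800, -3600, 176]]

/-- the power `5` of `M` -/
def P5_5 : Matrix (Fin 4) (Fin 4) ℤ :=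
  Matrix.of ![![-4480, -23680, 10624, 3200],
    ![2176, 37760, 17280, -1920],
    ![1920, -17280, -37760, -2176],
    ![-3200, -10624, 23680, 4480]]

theorem P5_2_eq : M5 * M5 = P5_2 := by decide +kernel

theorem P5_3_eq : P5_2 * M5 = P5_3 := by decide +kernel

theorem P5_4_eq : P5_2 * P5_2 = P5_4 := by decide +kernel

theorem P5_5_eq : P5_2 * P5_3 = P5_5 := by decide +kernel

theorem rel5 : P5_2 * P5_2 = (80 : ℤ) • P5_2 - (1024 : ℤ) • (1 : Matrix (Fin 4) (Fin 4) ℤ) := by
  decide +kernel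

/-- a sequence of matrices `N^s R` -/
theorem odd5 (a : ℕ) (R : Matrix (Fin 4) (Fin 4) ℤ) (h0 : ∀ i j, ∃ y, R i j = 2 ^ a * (2 * y + 1))
    (h1 : ∀ i j, ∃ y, (P5_2 * R) i j = 2 ^ (a + 4) * (2 * y + 1)) (s : ℕ) :
    (∀ i j, ∃ y, (P5_2 ^ s * R) i j = 2 ^ (a + 4 * s) * (2 * y + 1)) ∧
    (∀ i j, ∃ y, (P5_2 ^ (s + 1) * R) i j = 2 ^ (a + 4 * (s + 1)) * (2 * y + 1)) := by
  induction s with
  | zero => exact ⟨by simpa using h0, by simpa using h1⟩
  | succ s ih =>
    refine ⟨ih.2, fun i j => ?_⟩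
    obtain ⟨x, hx⟩ := ih.1 i j
    obtain ⟨y, hy⟩ := ih.2 i j
    have e : P5_2 ^ (s + 1 + 1) * R = (80 : ℤ) • (P5_2 ^ (s + 1) * R) - (1024 : ℤ) • (P5_2 ^ s * R) := by
      rw [pow_succ' P5_2 (s + 1), pow_succ' P5_2 s, ← mul_assoc P5_2 P5_2, rel5, sub_mul, sub_mul, smul_mul_assoc, smul_mul_assoc,
        smul_mul_assoc, smul_mul_assoc, one_mul]
    rw [e, Matrix.sub_apply, Matrix.smul_apply, Matrix.smul_apply, hx, hy]
    refine ⟨5 * y - 4 * x, ?_⟩
    simp only [smul_eq_mul]
    have e1 : (2 : ℤ) ^ (a + 4 * (s + 1)) = 2 ^ (a + 4 * s) * 16 := by rw [show a + 4 * (s + 1) = a + 4 * s + 4 by ring, pow_add]; norm_num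
    have e2 : (2 : ℤ) ^ (a + 4 * (s + 1 + 1)) = 2 ^ (a + 4 * s) * 256 := by
      rw [show a + 4 * (s + 1 + 1) = a + 4 * s + 8 by ring, pow_add]; norm_num
    rw [e1, e2]
    ring

theorem dec_odd4 (a : ℕ) (R : Matrix (Fin 4) (Fin 4) ℤ) (h : ∀ i j, R i j % 2 ^ (a + 1) = 2 ^ a) :
    ∀ i j, ∃ y, R i j = 2 ^ a * (2 * y + 1) := fun i j => by
  refine ⟨R i j / 2 ^ (a + 1), ?_⟩
  have h1 := Int.emod_add_mul_ediv (R i j) (2 ^ (a + 1))
  rw [h i j, pow_succ] at h1
  rw [pow_succ]
  linear_combination -h1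

theorem pow5 (v : ℕ) : ∀ i j, ∃ y, (M5 ^ (v + 2)) i j = 2 ^ (4 * ((v + 1) / 2) - v % 2) * (2 * y + 1) := by
  have hN : M5 ^ 2 = P5_2 := by rw [sq, P5_2_eq]
  obtain ⟨s, hs | hs⟩ := Nat.even_or_odd' v
  · have e : M5 ^ (v + 2) = P5_2 ^ s * P5_2 := by
      rw [← hN, ← pow_mul, ← pow_add, hs]
    have e2 : 4 * ((v + 1) / 2) - v % 2 = 0 + 4 * s := by omega
    rw [e, e2]
    exact (odd5 0 P5_2 (dec_odd4 0 _ (by decide +kernel)) (by rw [P5_4_eq]; exact dec_odd4 4 _ (by decide +kernel)) s).1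
  · have e : M5 ^ (v + 2) = P5_2 ^ s * P5_3 := by
      rw [← P5_3_eq, ← hN, ← pow_mul, ← pow_succ, ← pow_add, hs]
    have e2 : 4 * ((v + 1) / 2) - v % 2 = 3 + 4 * s := by omega
    rw [e, e2]
    exact (odd5 3 P5_3 (dec_odd4 3 _ (by decide +kernel)) (by rw [P5_5_eq]; exact dec_odd4 7 _ (by decide +kernel)) s).1

theorem val5 (n j : ℕ) (hj : j < 4) : emultiplicity (2 : ℤ) (t 5 (4 * n + j)) =
    (4 * ((padicValNat 2 (n + 1) + 1) / 2) - padicValNat 2 (n + 1) % 2 : ℕ) := by
  obtain ⟨u, hu⟩ : ∃ u, n + 1 = 2 ^ padicValNat 2 (n + 1) * (2 * u + 1) := by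
    obtain ⟨r, hr⟩ := pow_padicValNat_dvd (p := 2) (n := n + 1)
    have hodd : ¬ 2 ∣ r := by
      intro h2
      have h3 : 2 ^ (padicValNat 2 (n + 1) + 1) ∣ n + 1 := by
        rw [pow_succ]
        nth_rewrite 2 [hr]
        exact mul_dvd_mul_left _ h2
      exact pow_succ_padicValNat_not_dvd (Nat.succ_ne_zero n) h3
    have h4 : 2 * (r / 2) + 1 = r := by omega
    exact ⟨r / 2, by rw [h4]; exact hr⟩
  generalize padicValNat 2 (n + 1) = v at hu ⊢
  obtain ⟨i, hi⟩ : ∃ i : Fin 4, (i : ℕ) = 3 - j := ⟨⟨3 - j, by omega⟩, rfl⟩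
  have h1 := S5_pow (2 * (u : ℤ)) (v + 2) i
  have hu' : ((n : ℤ) + 1) = 2 ^ v * (2 * u + 1) := by exact_mod_cast hu
  have e : (2 : ℤ) ^ (v + 2) * (2 * (u : ℤ) + 1) - 1 - (i : ℕ) = ((4 * n + j : ℕ) : ℤ) := by
    have : ((i : ℕ) : ℤ) = 3 - j := by omega
    rw [this, pow_add]
    push_cast
    linear_combination (-4 : ℤ) * hu'
  rw [e, T_nat] at h1
  have hp := pow5 v
  choose y hy using hp
  obtain ⟨w, hw⟩ := T5_sum u
  refine emul (y := w + ∑ l : Fin 4, y i l * T 5 (2 * (u : ℤ) - (l : ℕ))) ?_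
  rw [h1]
  simp_rw [hy]
  have e3 : ∑ x : Fin 4, 2 ^ (4 * ((v + 1) / 2) - v % 2) * (2 * y i x + 1) * T 5 (2 * (u : ℤ) - (x : ℕ)) =
      2 ^ (4 * ((v + 1) / 2) - v % 2) * (2 * (∑ l : Fin 4, y i l * T 5 (2 * (u : ℤ) - (l : ℕ))) +
        ∑ l : Fin 4, T 5 (2 * (u : ℤ) - (l : ℕ))) := by
    rw [Finset.mul_sum, ← Finset.sum_add_distrib, Finset.mul_sum]
    exact Finset.sum_congr rfl fun l _ => by ring
  rw [e3, hw]
  ring

/-! ### powers of the matrix, the power 9 -/

theorem S9_pow (z : ℤ) (w : ℕ) : ∀ i : Fin 8, T 9 (2 ^ w * (z + 1) - 1 - (i : ℕ)) =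
    ∑ j : Fin 8, (M9 ^ w) i j * T 9 (z - (j : ℕ)) := by
  induction w with
  | zero =>
    intro i
    simp [Matrix.one_apply]
  | succ w ih =>
    intro i
    have e : (2 : ℤ) ^ (w + 1) * (z + 1) - 1 = 2 * (2 ^ w * (z + 1) - 1) + 1 := by ring
    rw [e, S9_step, pow_succ' M9 w]
    simp_rw [Matrix.mul_apply, Finset.sum_mul]
    rw [Finset.sum_comm]
    refine Finset.sum_congr rfl fun l _ => ?_
    rw [ih l, Finset.mul_sum]
    exact Finset.sum_congr rfl fun j _ => by ring

/-- the power `2` of `M` -/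
def P9_2 : Matrix (Fin 8) (Fin 8) ℤ :=
  Matrix.of ![![-3, -1170, -153, 4692, 891, -162, 1, 0],
    ![27, 162, -3231, -3060, 1709, 306, -9, 0],
    ![-9, 306, 1709, -3060, -3231, 162, 27, 0],
    ![1, -162, 891, 4692, -153, -1170, -3, 0],
    ![0, -3, -1170, -153, 4692, 891, -162, 1],
    ![0, 27, 162, -3231, -3060, 1709, 306, -9],
    ![0, -9, 306, 1709, -3060, -3231, 162, 27],
    ![0, 1, -162, 891, 4692, -153, -1170, -3]]

/-- the power `3` of `M` -/
def P9_3 : Matrix (Fin 8) (Fin 8) ℤ :=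
  Matrix.of ![![-1143, -35799, 26541, 431613, 256347, -3429, -2385, -1],
    ![-81, 29583, 163179, -98277, -315315, -58995, 1369, 9],
    ![387, -6669, -184785, -297873, 109449, 97273, 3717, -27],
    ![-171, -9243, 73737, 436041, 232703, -51057, -10269, 3],
    ![-3, 10269, 51057, -232703, -436041, -73737, 9243, 171],
    ![27, -3717, -97273, -109449, 297873, 184785, 6669, -387],
    ![-9, -1369, 58995, 315315, 98277, -163179, -29583, 81],
    ![1, 2385, 3429, -256347, -431613, -26541, 35799, 1143]]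

/-- the power `4` of `M` -/
def P9_4 : Matrix (Fin 8) (Fin 8) ℤ :=
  Matrix.of ![![-25512, -1000008, 6631416, 26437976, 2447496, -5358168, -201432, 2376],
    ![30312, -495096, -10728504, -6105240, 18318264, 5176728, -264168, -1288],
    ![-10152, 1092600, 3021688, -20548584, -20276856, 1262952, 629928, -3960],
    ![-7704, -545976, 6215112, 23587368, -1001160, -7521192, -322280, 10296],
    ![10296, -322280, -7521192, -1001160, 23587368, 6215112, -545976, -7704],
    ![-3960, 629928, 1262952, -20276856, -20548584, 3021688, 1092600, -10152],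
    ![-1288, -264168, 5176728, 18318264, -6105240, -10728504, -495096, 30312],
    ![2376, -201432, -5358168, 2447496, 26437976, 6631416, -1000008, -25512]]

/-- the power `5` of `M` -/
def P9_5 : Matrix (Fin 8) (Fin 8) ℤ :=
  Matrix.of ![![-770400, -67102048, 244556064, 2015875872, 1006576608, -281205792, -43219872, 222816],
    ![-767904, 70081632, 455516640, -810143776, -1764789984, -235708128, 37674144, 252576],
    ![1183968, -7557408, -670869408, -1134661536, 835941024, 568225952, 8633376, -665568],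
    ![-476640, -51356640, 260742816, 1959564960, 958606944, -347762592, -54222624, 414944],
    ![-414944, 54222624, 347762592, -958606944, -1959564960, -260742816, 51356640, 476640],
    ![665568, -8633376, -568225952, -835941024, 1134661536, 670869408, 7557408, -1183968],
    ![-252576, -37674144, 235708128, 1764789984, 810143776, -455516640, -70081632, 767904],
    ![-222816, 43219872, 281205792, -1006576608, -2015875872, -244556064, 67102048, 770400]]

/-- the power `6` of `M` -/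
def P9_6 : Matrix (Fin 8) (Fin 8) ℤ :=
  Matrix.of ![![-60168448, -2536088832, 34330639104, 123290816256, 1304315136, -36485938944, -1962796800, 45225216],
    ![76992768, -2322350848, -42854130432, -14140659456, 105689604864, 31271028480, -1691635968, -35400960],
    ![-18213120, 4531643136, 7448558336, -108956530944, -105710734080, 6924351744, 3911383296, -14623488],
    ![-47066880, -2195921664, 33255836928, 117200773376, -5277940992, -39462232320, -2101600512, 57957120],
    ![57957120, -2101600512, -39462232320, -5277940992, 117200773376, 33255836928, -2195921664, -47066880],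
    ![-14623488, 3911383296, 6924351744, -105710734080, -108956530944, 7448558336, 4531643136, -18213120],
    ![-35400960, -1691635968, 31271028480, 105689604864, -14140659456, -42854130432, -2322350848, 76992768],
    ![45225216, -1962796800, -36485938944, 1304315136, 123290816256, 34330639104, -2536088832, -60168448]]

/-- the power `7` of `M` -/
def P9_7 : Matrix (Fin 8) (Fin 8) ℤ :=
  Matrix.of ![![-1994572800, -271929984000, 1194504956928, 9592771046400, 4502691951616, -1783476734976, -255218162688, 2369823744],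
    ![-3015285760, 281474491392, 1868430504960, -4316932328448, -8901962486784, -1053785576448, 233674865664, 1373027328],
    ![4695561216, -11324500992, -3016511167488, -5191966301184, 4483244473344, 2904497781760, 25991728128, -4042994688],
    ![-1772319744, -257201320960, 1163021073408, 9435978021888, 4499338798080, -1831166254080, -269356133376, 2623214592],
    ![-2623214592, 269356133376, 1831166254080, -4499338798080, -9435978021888, -1163021073408, 257201320960, 1772319744],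
    ![4042994688, -25991728128, -2904497781760, -4483244473344, 5191966301184, 3016511167488, 11324500992, -4695561216],
    ![-1373027328, -233674865664, 1053785576448, 8901962486784, 4316932328448, -1868430504960, -281474491392, 3015285760],
    ![-2369823744, 255218162688, 1783476734976, -4502691951616, -9592771046400, -1194504956928, 271929984000, 1994572800]]

/-- the power `8` of `M` -/
def P9_8 : Matrix (Fin 8) (Fin 8) ℤ :=
  Matrix.of ![![-253978828800, -10779708874752, 168681775177728, 595279260131328, -10188401025024, -194312435245056, -11167063515136, 276546576384],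
    ![308612063232, -10746441179136, -197448137515008, -47876442071040, 541941502910464, 161961808011264, -8879068569600, -221317619712],
    ![-53584551936, 21154525028352, 27012920909824, -547496229298176, -528888319451136, 35085452009472, 20381921796096, -62378680320],
    ![-241250443264, -10141584334848, 167492169031680, 579411852288000, -26482930016256, -197763983106048, -11062664257536, 292965064704],
    ![292965064704, -11062664257536, -197763983106048, -26482930016256, 579411852288000, 167492169031680, -10141584334848, -241250443264],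
    ![-62378680320, 20381921796096, 35085452009472, -528888319451136, -547496229298176, 27012920909824, 21154525028352, -53584551936],
    ![-221317619712, -8879068569600, 161961808011264, 541941502910464, -47876442071040, -197448137515008, -10746441179136, 308612063232],
    ![276546576384, -11167063515136, -194312435245056, -10188401025024, 595279260131328, 168681775177728, -10779708874752, -253978828800]]

/-- the power `9` of `M` -/
def P9_9 : Matrix (Fin 8) (Fin 8) ℤ :=
  Matrix.of ![![-8493899415552, -1289592014340096, 5831925437988864, 46816288932003840, 21582511243886592, -9324735686148096, -1313379317219328, 13655982702592],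
    ![-13523949748224, 1316361499803648, 8753643209981952, -21680548323950592, -44150081997864960, -5047665453268992, 1216770557640704, 6887209992192],
    ![21636785995776, -24548514103296, -14511647476973568, -25103048348565504, 22574664036679680, 14456696624414720, 105668393730048, -20943329918976],
    ![-7970330345472, -1272849667817472, 5582624800407552, 46263591695056896, 21908242349129728, -9180765304160256, -1330527939231744, 13699349839872],
    ![-13699349839872, 1330527939231744, 9180765304160256, -21908242349129728, -46263591695056896, -5582624800407552, 1272849667817472, 7970330345472],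
    ![20943329918976, -105668393730048, -14456696624414720, -22574664036679680, 25103048348565504, 14511647476973568, 24548514103296, -21636785995776],
    ![-6887209992192, -1216770557640704, 5047665453268992, 44150081997864960, 21680548323950592, -8753643209981952, -1316361499803648, 13523949748224],
    ![-13655982702592, 1313379317219328, 9324735686148096, -21582511243886592, -46816288932003840, -5831925437988864, 1289592014340096, 8493899415552]]

/-- the power `10` of `M` -/
def P9_10 : Matrix (Fin 8) (Fin 8) ℤ :=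
  Matrix.of ![![-1213146919600128, -51382864975233024, 830518965399453696, 2919222492070150144, -72476514869575680, -977527079676149760, -57076374452305920, 1436283161542656],
    ![1438077047537664, -51938311442006016, -955937130129653760, -207700021406859264, 2700507260013772800, 809075173919293440, -44504121517277184, -1154785667710976],
    ![-219279588065280, 102800542412832768, 120734019999236096, -2714160168776761344, -2618973324417171456, 174305746290475008, 101972303695577088, -294158363000832],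
    ![-1201116694708224, -49133111801020416, 830819074820014080, 2860357931047845888, -131237907934740480, -979718671240003584, -55485378887680000, 1453822087790592],
    ![1453822087790592, -55485378887680000, -979718671240003584, -131237907934740480, 2860357931047845888, 830819074820014080, -49133111801020416, -1201116694708224],
    ![-294158363000832, 101972303695577088, 174305746290475008, -2618973324417171456, -2714160168776761344, 120734019999236096, 102800542412832768, -219279588065280],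
    ![-1154785667710976, -44504121517277184, 809075173919293440, 2700507260013772800, -207700021406859264, -955937130129653760, -51938311442006016, 1438077047537664],
    ![1436283161542656, -57076374452305920, -977527079676149760, -72476514869575680, 2919222492070150144, 830518965399453696, -51382864975233024, -1213146919600128]]

theorem P9_2_eq : M9 * M9 = P9_2 := by decide +kernel

theorem P9_3_eq : P9_2 * M9 = P9_3 := by decide +kernel

theorem P9_4_eq : P9_2 * P9_2 = P9_4 := by decide +kernel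

theorem P9_5_eq : P9_2 * P9_3 = P9_5 := by decide +kernel

theorem P9_6_eq : P9_2 * P9_4 = P9_6 := by decide +kernel

theorem P9_7_eq : P9_2 * P9_5 = P9_7 := by decide +kernel

theorem P9_8_eq : P9_2 * P9_6 = P9_8 := by decide +kernel

theorem P9_9_eq : P9_2 * P9_7 = P9_9 := by decide +kernel

theorem P9_10_eq : P9_2 * P9_8 = P9_10 := by decide +kernel

theorem rel9 : P9_2 * P9_6 = (6560 : ℤ) • P9_6 - (8472576 : ℤ) • P9_4 + (2235564032 : ℤ) • P9_2 -
    (68719476736 : ℤ) • (1 : Matrix (Fin 8) (Fin 8) ℤ) := by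
  decide +kernel

theorem odd9 (a : ℕ) (R : Matrix (Fin 8) (Fin 8) ℤ) (h0 : ∀ i j, ∃ y, R i j = 2 ^ a * (2 * y + 1))
    (h1 : ∀ i j, ∃ y, (P9_2 * R) i j = 2 ^ (a + 5) * (2 * y + 1))
    (h2 : ∀ i j, ∃ y, (P9_2 * (P9_2 * R)) i j = 2 ^ (a + 10) * (2 * y + 1))
    (h3 : ∀ i j, ∃ y, (P9_2 * (P9_2 * (P9_2 * R))) i j = 2 ^ (a + 15) * (2 * y + 1)) (s : ℕ) :
    (∀ i j, ∃ y, (P9_2 ^ s * R) i j = 2 ^ (a + 5 * s) * (2 * y + 1)) ∧
    (∀ i j, ∃ y, (P9_2 ^ (s + 1) * R) i j = 2 ^ (a + 5 * (s + 1)) * (2 * y + 1)) ∧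
    (∀ i j, ∃ y, (P9_2 ^ (s + 2) * R) i j = 2 ^ (a + 5 * (s + 2)) * (2 * y + 1)) ∧
    (∀ i j, ∃ y, (P9_2 ^ (s + 3) * R) i j = 2 ^ (a + 5 * (s + 3)) * (2 * y + 1)) := by
  have hN2 : P9_2 ^ 2 = P9_4 := by rw [sq, P9_4_eq]
  have hN3 : P9_2 ^ 3 = P9_6 := by rw [pow_succ', hN2, P9_6_eq]
  have hN4 : P9_2 ^ 4 = (6560 : ℤ) • P9_2 ^ 3 - (8472576 : ℤ) • P9_2 ^ 2 + (2235564032 : ℤ) • P9_2 -
    (68719476736 : ℤ) • (1 : Matrix (Fin 8) (Fin 8) ℤ) := by rw [pow_succ' P9_2 3, hN3, hN2, rel9]
  induction s with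
  | zero =>
    refine ⟨by simpa using h0, by simpa using h1, ?_, ?_⟩
    · have e : P9_2 ^ (0 + 2) * R = P9_2 * (P9_2 * R) := by rw [zero_add, sq, mul_assoc]
      rw [e]
      simpa using h2
    · have e : P9_2 ^ (0 + 3) * R = P9_2 * (P9_2 * (P9_2 * R)) := by rw [zero_add, pow_succ, sq, mul_assoc, mul_assoc]
      rw [e]
      simpa using h3
  | succ s ih =>
    obtain ⟨i1, i2, i3, i4⟩ := ih
    refine ⟨i2, i3, i4, fun i j => ?_⟩
    obtain ⟨x, hx⟩ := i1 i j
    obtain ⟨y, hy⟩ := i2 i j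
    obtain ⟨z, hz⟩ := i3 i j
    obtain ⟨w, hw⟩ := i4 i j
    have e : P9_2 ^ (s + 1 + 3) * R = (6560 : ℤ) • (P9_2 ^ (s + 3) * R) - (8472576 : ℤ) • (P9_2 ^ (s + 2) * R) +
        (2235564032 : ℤ) • (P9_2 ^ (s + 1) * R) - (68719476736 : ℤ) • (P9_2 ^ s * R) := by
      rw [show s + 1 + 3 = 4 + s by ring, pow_add, hN4, show s + 3 = 3 + s by ring, pow_add P9_2 3 s, show s + 2 = 2 + s by ring,
        pow_add P9_2 2 s, pow_succ' P9_2 s]
      simp only [sub_mul, add_mul, smul_mul_assoc, one_mul]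
    rw [e, Matrix.sub_apply, Matrix.add_apply, Matrix.sub_apply, Matrix.smul_apply, Matrix.smul_apply, Matrix.smul_apply,
      Matrix.smul_apply, hx, hy, hz, hw]
    refine ⟨205 * w - 8274 * z + 68224 * y - 65536 * x + ((205 - 8274 + 68224 - 65536 - 1) / 2), ?_⟩
    simp only [smul_eq_mul]
    have e1 : (2 : ℤ) ^ (a + 5 * (s + 1)) = 2 ^ (a + 5 * s) * 32 := by rw [show a + 5 * (s + 1) = a + 5 * s + 5 by ring, pow_add]; norm_num
    have e2 : (2 : ℤ) ^ (a + 5 * (s + 2)) = 2 ^ (a + 5 * s) * 1024 := by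
      rw [show a + 5 * (s + 2) = a + 5 * s + 10 by ring, pow_add]; norm_num
    have e3 : (2 : ℤ) ^ (a + 5 * (s + 3)) = 2 ^ (a + 5 * s) * 32768 := by
      rw [show a + 5 * (s + 3) = a + 5 * s + 15 by ring, pow_add]; norm_num
    have e4 : (2 : ℤ) ^ (a + 5 * (s + 1 + 3)) = 2 ^ (a + 5 * s) * 1048576 := by
      rw [show a + 5 * (s + 1 + 3) = a + 5 * s + 20 by ring, pow_add]; norm_num
    rw [e1, e2, e3, e4]
    norm_num
    ring

theorem dec_odd8 (a : ℕ) (R : Matrix (Fin 8) (Fin 8) ℤ) (h : ∀ i j, R i j % 2 ^ (a + 1) = 2 ^ a) :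
    ∀ i j, ∃ y, R i j = 2 ^ a * (2 * y + 1) := fun i j => by
  refine ⟨R i j / 2 ^ (a + 1), ?_⟩
  have h1 := Int.emod_add_mul_ediv (R i j) (2 ^ (a + 1))
  rw [h i j, pow_succ] at h1
  rw [pow_succ]
  linear_combination -h1

theorem pow9 (v : ℕ) : ∀ i j, ∃ y, (M9 ^ (v + 3)) i j = 2 ^ (5 * ((v + 1) / 2) - 2 * (v % 2)) * (2 * y + 1) := by
  have hN : M9 ^ 2 = P9_2 := by rw [sq, P9_2_eq]
  obtain ⟨s, hs | hs⟩ := Nat.even_or_odd' v
  · have e : M9 ^ (v + 3) = P9_2 ^ s * P9_3 := by
      rw [← P9_3_eq, ← hN, ← pow_mul, ← pow_succ, ← pow_add, hs]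
    have e2 : 5 * ((v + 1) / 2) - 2 * (v % 2) = 0 + 5 * s := by omega
    rw [e, e2]
    exact (odd9 0 P9_3 (dec_odd8 0 _ (by decide +kernel)) (by rw [P9_5_eq]; exact dec_odd8 5 _ (by decide +kernel))
      (by rw [P9_5_eq, P9_7_eq]; exact dec_odd8 10 _ (by decide +kernel))
      (by rw [P9_5_eq, P9_7_eq, P9_9_eq]; exact dec_odd8 15 _ (by decide +kernel)) s).1
  · have e : M9 ^ (v + 3) = P9_2 ^ s * P9_4 := by
      rw [← P9_4_eq, ← hN, ← pow_mul, ← pow_add, ← pow_add, hs]
    have e2 : 5 * ((v + 1) / 2) - 2 * (v % 2) = 3 + 5 * s := by omega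
    rw [e, e2]
    exact (odd9 3 P9_4 (dec_odd8 3 _ (by decide +kernel)) (by rw [P9_6_eq]; exact dec_odd8 8 _ (by decide +kernel))
      (by rw [P9_6_eq, P9_8_eq]; exact dec_odd8 13 _ (by decide +kernel))
      (by rw [P9_6_eq, P9_8_eq, P9_10_eq]; exact dec_odd8 18 _ (by decide +kernel)) s).1

theorem val9 (n j : ℕ) (hj : j < 8) : emultiplicity (2 : ℤ) (t 9 (8 * n + j)) =
    (5 * ((padicValNat 2 (n + 1) + 1) / 2) - 2 * (padicValNat 2 (n + 1) % 2) : ℕ) := by
  obtain ⟨u, hu⟩ : ∃ u, n + 1 = 2 ^ padicValNat 2 (n + 1) * (2 * u + 1) := by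
    obtain ⟨r, hr⟩ := pow_padicValNat_dvd (p := 2) (n := n + 1)
    have hodd : ¬ 2 ∣ r := by
      intro h2
      have h3 : 2 ^ (padicValNat 2 (n + 1) + 1) ∣ n + 1 := by
        rw [pow_succ]
        nth_rewrite 2 [hr]
        exact mul_dvd_mul_left _ h2
      exact pow_succ_padicValNat_not_dvd (Nat.succ_ne_zero n) h3
    have h4 : 2 * (r / 2) + 1 = r := by omega
    exact ⟨r / 2, by rw [h4]; exact hr⟩
  generalize padicValNat 2 (n + 1) = v at hu ⊢
  obtain ⟨i, hi⟩ : ∃ i : Fin 8, (i : ℕ) = 7 - j := ⟨⟨7 - j, by omega⟩, rfl⟩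
  have h1 := S9_pow (2 * (u : ℤ)) (v + 3) i
  have hu' : ((n : ℤ) + 1) = 2 ^ v * (2 * u + 1) := by exact_mod_cast hu
  have e : (2 : ℤ) ^ (v + 3) * (2 * (u : ℤ) + 1) - 1 - (i : ℕ) = ((8 * n + j : ℕ) : ℤ) := by
    have : ((i : ℕ) : ℤ) = 7 - j := by omega
    rw [this, pow_add]
    push_cast
    linear_combination (-8 : ℤ) * hu'
  rw [e, T_nat] at h1
  have hp := pow9 v
  choose y hy using hp
  obtain ⟨w, hw⟩ := T9_sum u
  refine emul (y := w + ∑ l : Fin 8, y i l * T 9 (2 * (u : ℤ) - (l : ℕ))) ?_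
  rw [h1]
  simp_rw [hy]
  have e3 : ∑ x : Fin 8, 2 ^ (5 * ((v + 1) / 2) - 2 * (v % 2)) * (2 * y i x + 1) * T 9 (2 * (u : ℤ) - (x : ℕ)) =
      2 ^ (5 * ((v + 1) / 2) - 2 * (v % 2)) * (2 * (∑ l : Fin 8, y i l * T 9 (2 * (u : ℤ) - (l : ℕ))) +
        ∑ l : Fin 8, T 9 (2 * (u : ℤ) - (l : ℕ))) := by
    rw [Finset.mul_sum, ← Finset.sum_add_distrib, Finset.mul_sum]
    exact Finset.sum_congr rfl fun l _ => by ring
  rw [e3, hw]
  ring

/-! ### the power series -/

/-- the partial products -/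
noncomputable def P (N : ℕ) : Polynomial ℤ := ∏ i ∈ range N, (1 - (Polynomial.X : Polynomial ℤ) ^ (2 ^ i))

theorem t_coeff {m N n : ℕ} (h : n < 2 ^ N) : t m n = (P N ^ m).coeff n := by
  have e : Pool.Agent.Results.MP_1a5b88_nt.NotDetermined.G m N = P N ^ m := by
    unfold P Pool.Agent.Results.MP_1a5b88_nt.NotDetermined.G
    rw [Finset.prod_pow]
  rw [t_eq h, ← e]
  unfold c
  rw [if_neg (by omega), Int.toNat_natCast]

theorem coe_P (N : ℕ) : ((P N : Polynomial ℤ) : PowerSeries ℤ) =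
    ∏ i ∈ range N, (1 - (PowerSeries.X : PowerSeries ℤ) ^ (2 ^ i)) := by
  induction N with
  | zero => simp [P]
  | succ N ih =>
    have e : P (N + 1) = P N * (1 - (Polynomial.X : Polynomial ℤ) ^ (2 ^ N)) := by
      unfold P
      rw [prod_range_succ]
    rw [e, prod_range_succ, ← ih, Polynomial.coe_mul, Polynomial.coe_sub, Polynomial.coe_pow, Polynomial.coe_one, Polynomial.coe_X]

/-- the product `F` -/
noncomputable def F : PowerSeries ℤ := PowerSeries.mk fun n => t 1 n

theorem F_pow (m n : ℕ) : PowerSeries.coeff n (F ^ m) = t m n := by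
  obtain ⟨N, hN⟩ : ∃ N : ℕ, n < 2 ^ N := ⟨n, Nat.lt_two_pow_self⟩
  have h1 : (PowerSeries.X : PowerSeries ℤ) ^ (2 ^ N) ∣ F - (P N : PowerSeries ℤ) := by
    rw [PowerSeries.X_pow_dvd_iff]
    intro l hl
    rw [map_sub, Polynomial.coeff_coe]
    unfold F
    rw [PowerSeries.coeff_mk, t_coeff hl, pow_one, sub_self]
  have h2 := h1.trans (sub_dvd_pow_sub_pow F (P N : PowerSeries ℤ) m)
  rw [PowerSeries.X_pow_dvd_iff] at h2
  have h3 := h2 n hN
  rw [map_sub, sub_eq_zero] at h3
  rw [h3, t_coeff hN, ← Polynomial.coeff_coe, Polynomial.coe_pow]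

/-- **Q2 of MP_1a5b88, answered affirmatively.**  Let `F` be the formal power series `∏_{i ≥ 0} (1 - x^(2^i))` (the first condition: its
coefficients of index `< 2^N` are those of the product of the first `N` factors, for all `N`, which determines `F`).  With
`v = ν₂(n + 1)`, the 2-adic valuation of the coefficient of `x^(4n+j)` in `F^5` is `4 ⌈v/2⌉ - (v mod 2)` for all `n` and
`0 ≤ j < 4`, and the one of the coefficient of `x^(8n+j)` in `F^9` is `5 ⌈v/2⌉ - 2 (v mod 2)` for all `n` and `0 ≤ j < 8`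
(`⌈v/2⌉` is the natural number quotient `(v + 1) / 2`). -/
theorem result : ∃ F : PowerSeries ℤ,
    (∀ N n : ℕ, n < 2 ^ N → PowerSeries.coeff n F =
      PowerSeries.coeff n (∏ i ∈ Finset.range N, (1 - (PowerSeries.X : PowerSeries ℤ) ^ (2 ^ i)))) ∧
    (∀ n j v : ℕ, j < 4 → v = padicValNat 2 (n + 1) →
      emultiplicity (2 : ℤ) (PowerSeries.coeff (4 * n + j) (F ^ 5)) = (4 * ((v + 1) / 2) - v % 2 : ℕ)) ∧
    (∀ n j v : ℕ, j < 8 → v = padicValNat 2 (n + 1) →
      emultiplicity (2 : ℤ) (PowerSeries.coeff (8 * n + j) (F ^ 9)) = (5 * ((v + 1) / 2) - 2 * (v % 2) : ℕ)) := by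
  refine ⟨F, fun N n h => ?_, fun n j v hj hv => ?_, fun n j v hj hv => ?_⟩
  · rw [← coe_P, Polynomial.coeff_coe]
    unfold F
    rw [PowerSeries.coeff_mk, t_coeff h, pow_one]
  · rw [F_pow, hv]
    exact val5 n j hj
  · rw [F_pow, hv]
    exact val9 n j hj

end Pool.Agent.Results.MP_1a5b88_nt.ExplicitCases
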